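import Pool.Agent.H.MP_58d537_lc.A20S.Defs

/-!
# Bernoulli averages over the revealed set: Russo formula and the free gain
-/

set_option autoImplicit false

open Finset
open scoped InnerProductSpace

namespace Pool.Agent.H.MP_58d537_lc.SubE

noncomputable section

variable {N : ℕ}

lemma wB_nonneg {t : ℝ} (ht0 : 0 ≤ t) (ht1 : t ≤ 1) (R : Finset (Fin N)) : 0 ≤ wB t R := by
  unfold wB
  refine Finset.prod_nonneg fun i _ => ?_
  split_ifs
  · exact ht0
  · linarith

lemma EB_mono {t : ℝ} (ht0 : 0 ≤ t) (ht1 : t ≤ 1) {Φ Ψ : Finset (Fin N) → ℝ}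
    (h : ∀ R, Φ R ≤ Ψ R) : EB t Φ ≤ EB t Ψ := by
  unfold EB
  exact Finset.sum_le_sum fun R _ => mul_le_mul_of_nonneg_left (h R) (wB_nonneg ht0 ht1 R)

lemma EB_nonneg {t : ℝ} (ht0 : 0 ≤ t) (ht1 : t ≤ 1) {Φ : Finset (Fin N) → ℝ}
    (h : ∀ R, 0 ≤ Φ R) : 0 ≤ EB t Φ := by
  unfold EB
  exact Finset.sum_nonneg fun R _ => mul_nonneg (wB_nonneg ht0 ht1 R) (h R)

lemma EB_add (t : ℝ) (Φ Ψ : Finset (Fin N) → ℝ) :
    EB t (fun R => Φ R + Ψ R) = EB t Φ + EB t Ψ := by
  unfold EB
  rw [← Finset.sum_add_distrib]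
  exact Finset.sum_congr rfl fun R _ => by ring

lemma EB_mul (t c : ℝ) (Φ : Finset (Fin N) → ℝ) : EB t (fun R => c * Φ R) = c * EB t Φ := by
  unfold EB
  rw [Finset.mul_sum]
  exact Finset.sum_congr rfl fun R _ => by ring

lemma EB_sum {ι : Type*} (t : ℝ) (s : Finset ι) (Φ : ι → Finset (Fin N) → ℝ) :
    EB t (fun R => ∑ i ∈ s, Φ i R) = ∑ i ∈ s, EB t (Φ i) := by
  unfold EB
  rw [Finset.sum_comm]
  exact Finset.sum_congr rfl fun R _ => by rw [Finset.mul_sum]

lemma EB_zero (Φ : Finset (Fin N) → ℝ) : EB 0 Φ = Φ ∅ := by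
  unfold EB
  rw [Finset.sum_eq_single (∅ : Finset (Fin N))]
  · have : wB (0 : ℝ) (∅ : Finset (Fin N)) = 1 := by
      unfold wB
      exact Finset.prod_eq_one fun i _ => by simp
    rw [this, one_mul]
  · intro R _ hR
    obtain ⟨i, hi⟩ := Finset.nonempty_iff_ne_empty.mpr hR
    have : wB (0 : ℝ) R = 0 := by
      unfold wB
      exact Finset.prod_eq_zero (Finset.mem_univ i) (by simp [hi])
    rw [this, zero_mul]
  · intro h
    exact absurd (Finset.mem_univ _) h

lemma EB_one (Φ : Finset (Fin N) → ℝ) : EB 1 Φ = Φ univ := by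
  unfold EB
  rw [Finset.sum_eq_single (univ : Finset (Fin N))]
  · have : wB (1 : ℝ) (univ : Finset (Fin N)) = 1 := by
      unfold wB
      exact Finset.prod_eq_one fun i _ => by simp
    rw [this, one_mul]
  · intro R _ hR
    obtain ⟨i, hi⟩ : ∃ i, i ∉ R := by
      by_contra hcon
      push Not at hcon
      exact hR (Finset.eq_univ_iff_forall.mpr hcon)
    have : wB (1 : ℝ) R = 0 := by
      unfold wB
      exact Finset.prod_eq_zero (Finset.mem_univ i) (by simp [hi])
    rw [this, zero_mul]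
  · intro h
    exact absurd (Finset.mem_univ _) h

/-- the weight of `R` without the factor at `j` -/
def vB (t : ℝ) (j : Fin N) (R : Finset (Fin N)) : ℝ :=
  ∏ i ∈ univ.erase j, (if i ∈ R then t else 1 - t)

lemma vB_nonneg {t : ℝ} (ht0 : 0 ≤ t) (ht1 : t ≤ 1) (j : Fin N) (R : Finset (Fin N)) :
    0 ≤ vB t j R := by
  unfold vB
  refine Finset.prod_nonneg fun i _ => ?_
  split_ifs
  · exact ht0
  · linarith

lemma wB_eq (t : ℝ) (j : Fin N) (R : Finset (Fin N)) :
    wB t R = (if j ∈ R then t else 1 - t) * vB t j R := by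
  unfold wB vB
  exact (Finset.mul_prod_erase univ (fun i => if i ∈ R then t else 1 - t)
    (Finset.mem_univ j)).symm

lemma vB_insert (t : ℝ) (j : Fin N) (R : Finset (Fin N)) : vB t j (insert j R) = vB t j R := by
  unfold vB
  refine Finset.prod_congr rfl fun i hi => ?_
  have hij : i ≠ j := Finset.ne_of_mem_erase hi
  have : (i ∈ insert j R) ↔ (i ∈ R) := by simp [hij]
  simp only [this]

lemma sum_split_B (i : Fin N) (G : Finset (Fin N) → ℝ) :
    ∑ R, G R = ∑ R ∈ univ.filter (fun R : Finset (Fin N) => i ∉ R), (G R + G (insert i R)) := by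
  rw [← Finset.sum_filter_add_sum_filter_not univ (fun R : Finset (Fin N) => i ∉ R) G,
    Finset.sum_add_distrib]
  congr 1
  refine Finset.sum_bij' (fun R _ => R.erase i) (fun R _ => insert i R) ?_ ?_ ?_ ?_ ?_
  · intro R _
    simp
  · intro R _
    simp
  · intro R hR
    have : i ∈ R := by simpa using hR
    exact Finset.insert_erase this
  · intro R hR
    have : i ∉ R := by simpa using hR
    exact Finset.erase_insert this
  · intro R hR
    have : i ∈ R := by simpa using hR
    rw [Finset.insert_erase this]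

lemma sum_notMem_B (G : Fin N → Finset (Fin N) → ℝ) :
    ∑ R : Finset (Fin N), ∑ j ∈ univ \ R, G j R =
      ∑ j, ∑ R ∈ univ.filter (fun R : Finset (Fin N) => j ∉ R), G j R := by
  have h1 : ∀ R : Finset (Fin N), ∑ j ∈ univ \ R, G j R = ∑ j, if j ∉ R then G j R else 0 := by
    intro R
    rw [← Finset.sum_filter]
    refine Finset.sum_congr ?_ fun _ _ => rfl
    ext j
    simp
  simp_rw [h1]
  rw [Finset.sum_comm]
  refine Finset.sum_congr rfl fun j _ => ?_
  rw [Finset.sum_filter]

/-- Russo's formula -/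
theorem EB_deriv (Φ : Finset (Fin N) → ℝ) (t : ℝ) :
    ∃ D : ℝ, HasDerivAt (fun t => EB t Φ) D t ∧
      (1 - t) * D = EB t (fun R => ∑ j ∈ univ \ R, (Φ (insert j R) - Φ R)) := by
  have hw : ∀ R : Finset (Fin N), HasDerivAt (fun s => wB s R)
      (∑ i, vB t i R * (if i ∈ R then 1 else -1)) t := by
    intro R
    have h := HasDerivAt.fun_finsetProd (u := (univ : Finset (Fin N)))
      (f := fun i s => if i ∈ R then s else 1 - s) (f' := fun i => if i ∈ R then (1 : ℝ) else -1)
      (x := t) (by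
        intro i _
        by_cases hi : i ∈ R
        · simp only [hi, if_true]
          exact hasDerivAt_id' t
        · simp only [hi, if_false]
          exact (hasDerivAt_id' t).const_sub 1)
    unfold wB vB
    simpa [smul_eq_mul] using h
  refine ⟨∑ R, (∑ i, vB t i R * (if i ∈ R then 1 else -1)) * Φ R, ?_, ?_⟩
  · unfold EB
    exact HasDerivAt.fun_sum fun R _ => (hw R).mul_const (Φ R)
  · -- left side
    have hL : (1 - t) * ∑ R, (∑ i, vB t i R * (if i ∈ R then 1 else -1)) * Φ R =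
        ∑ i, ∑ R ∈ univ.filter (fun R : Finset (Fin N) => i ∉ R),
          wB t R * (Φ (insert i R) - Φ R) := by
      have e1 : ∑ R, (∑ i, vB t i R * (if i ∈ R then 1 else -1)) * Φ R =
          ∑ i, ∑ R, vB t i R * (if i ∈ R then 1 else -1) * Φ R := by
        rw [Finset.sum_comm]
        exact Finset.sum_congr rfl fun R _ => by rw [Finset.sum_mul]
      rw [e1, Finset.mul_sum]
      refine Finset.sum_congr rfl fun i _ => ?_
      rw [sum_split_B i, Finset.mul_sum]
      refine Finset.sum_congr rfl fun R hR => ?_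
      have hi : i ∉ R := by simpa using hR
      have hi' : i ∈ insert i R := Finset.mem_insert_self i R
      rw [vB_insert, wB_eq t i R]
      simp only [hi, hi', if_true, if_false]
      ring
    have hR : EB t (fun R => ∑ j ∈ univ \ R, (Φ (insert j R) - Φ R)) =
        ∑ i, ∑ R ∈ univ.filter (fun R : Finset (Fin N) => i ∉ R),
          wB t R * (Φ (insert i R) - Φ R) := by
      unfold EB
      rw [← sum_notMem_B (fun j R => wB t R * (Φ (insert j R) - Φ R))]
      exact Finset.sum_congr rfl fun R _ => by rw [Finset.mul_sum]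
    rw [hL, hR]

theorem EB_free {t : ℝ} (ht0 : 0 ≤ t) (ht1 : t ≤ 1) (Φ : Finset (Fin N) → ℝ) (j : Fin N)
    (hΦ : ∀ R, j ∉ R → Φ R ≤ Φ (insert j R)) :
    EB t (fun R => if j ∈ R then 0 else Φ R) ≤ (1 - t) * EB t Φ := by
  unfold EB
  rw [sum_split_B j, sum_split_B j (fun R => wB t R * Φ R), Finset.mul_sum]
  refine Finset.sum_le_sum fun R hR => ?_
  have hj : j ∉ R := by simpa using hR
  have hj' : j ∈ insert j R := Finset.mem_insert_self j R
  rw [wB_eq t j R, wB_eq t j (insert j R), vB_insert]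
  simp only [hj, hj', if_true, if_false, mul_zero, add_zero]
  have hv := vB_nonneg ht0 ht1 j R
  have h1 : 0 ≤ (1 - t) * vB t j R * (t * (Φ (insert j R) - Φ R)) :=
    mul_nonneg (mul_nonneg (by linarith) hv) (mul_nonneg ht0 (by linarith [hΦ R hj]))
  nlinarith [h1]

end

end Pool.Agent.H.MP_58d537_lc.SubE
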