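import Pool.Agent.H.MP_58d537_lc.Cube

/-!
# Definitions for the sub-exponential bit-fixing theorem

Micro-query systems, signs, Bernoulli averages over the revealed set.
-/

set_option autoImplicit false

open Finset
open scoped InnerProductSpace

namespace Pool.Agent.H.MP_58d537_lc.SubE

noncomputable section

variable {N : ℕ}

/-- the sign of the `j`-th bit -/
def sg (j : Fin N) (x : Fin N → Bool) : ℝ := if x j then -1 else 1

lemma sg_sq (j : Fin N) (x : Fin N → Bool) : sg j x * sg j x = 1 := by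
  unfold sg; split_ifs <;> norm_num

lemma sg_flip (j : Fin N) (x : Fin N → Bool) : sg j (flip j x) = - sg j x := by
  unfold sg flip
  simp only [Function.update_self]
  cases x j <;> simp

/-- Bernoulli weight of the revealed set `R` -/
def wB (t : ℝ) (R : Finset (Fin N)) : ℝ := ∏ i, (if i ∈ R then t else 1 - t)

/-- Bernoulli average -/
def EB (t : ℝ) (Φ : Finset (Fin N) → ℝ) : ℝ := ∑ R, wB t R * Φ R

/-- second moment of the conditional expectation of `f` given the bits in `R` -/
def sF (f : (Fin N → Bool) → ℝ) (R : Finset (Fin N)) : ℝ := avg (fun y => (avgR R y f) ^ 2)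

/-- An abstract query algorithm: query `q` has its own oracle `O q x` and pairwise orthogonal query
projections `P q j`. -/
structure MSys (N : ℕ) (H : Type*) [NormedAddCommGroup H] [InnerProductSpace ℂ H] where
  O : ℕ → (Fin N → Bool) → H ≃ₗᵢ[ℂ] H
  P : ℕ → Fin N → H →ₗ[ℂ] H
  U : ℕ → H ≃ₗᵢ[ℂ] H
  init : H
  symm : ∀ q j u v, ⟪P q j u, v⟫_ℂ = ⟪u, P q j v⟫_ℂ
  idem : ∀ q j v, P q j (P q j v) = P q j v
  orth : ∀ q i j, i ≠ j → ∀ v, P q i (P q j v) = 0
  query : ∀ q j x v, O q (flip j x) v = O q x (v - (2 : ℂ) • P q j v)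
  weight : ∀ q v, ∑ j, ‖P q j v‖ ^ 2 ≤ ‖v‖ ^ 2
  norm_init : ‖init‖ = 1

variable {H : Type*} [NormedAddCommGroup H] [InnerProductSpace ℂ H]

/-- the state after `q` queries -/
def MSys.st (A : MSys N H) : ℕ → (Fin N → Bool) → H
  | 0, _ => A.init
  | q + 1, x => A.U q (A.O q x (A.st q x))

lemma MSys.norm_st (A : MSys N H) (q : ℕ) (x : Fin N → Bool) : ‖A.st q x‖ = 1 := by
  induction q with
  | zero => exact A.norm_init
  | succ q ih => simp only [MSys.st, LinearIsometryEquiv.norm_map, ih]

end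

end Pool.Agent.H.MP_58d537_lc.SubE
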