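import Mathlib

set_option autoImplicit false

open Finset

namespace Pool.Agent.H.MP_58d537_lc.SubE

noncomputable section

lemma geo_block_sum (k l : ℕ) (η : ℝ) (hη : 0 < η) :
    ∑ r ∈ range (k * l), (1 + η) ^ (r / k) ≤ k / η * (1 + η) ^ l := by
  rcases Nat.eq_zero_or_pos k with hk | hk
  · subst hk; simp
  induction l with
  | zero =>
    simp only [mul_zero, range_zero, sum_empty, pow_zero, mul_one]
    positivity
  | succ l ih =>
    rw [Nat.mul_succ, Finset.sum_range_add]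
    have h1 : ∑ x ∈ range k, (1 + η) ^ ((k * l + x) / k) = k * (1 + η) ^ l := by
      rw [Finset.sum_congr rfl (g := fun _ => (1 + η) ^ l)]
      · simp
      · intro x hx
        have hx' : x < k := Finset.mem_range.1 hx
        rw [Nat.mul_add_div hk, Nat.div_eq_of_lt hx', add_zero]
    rw [h1]
    have h2 : (k : ℝ) / η * (1 + η) ^ (l + 1) =
        k / η * (1 + η) ^ l + k * (1 + η) ^ l := by
      field_simp
      ring
    rw [h2]
    linarith

lemma growth_deriv_bound (k : ℕ) (η δ : ℝ) (hη : 0 < η) (hδ : 0 < δ)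
    (Z Z' : ℕ → ℝ → ℝ) (q : ℕ) (u : ℝ) (hZq : 0 ≤ Z q u)
    (hr : ∀ r ∈ range (k * (q / k)),
      Z r u ≤ δ * (1 + η) ^ (4 * (r / k)) * Real.exp (8 * k ^ 2 / η ^ 2 * u))
    (hstep : ∀ β κ : ℕ → ℝ, (∀ r, 0 < β r) → (∀ r, 0 < κ r) →
      Z' q u ≤ 4 * (∑ r ∈ range (k * (q / k)), β r) * ∑ r ∈ range (k * (q / k)),
        (β r)⁻¹ * (κ r * Z q u + (κ r)⁻¹ * Z r u)) :
    Z' q u ≤ 4 * k ^ 2 / η ^ 2 * (Z q u +
      δ * (1 + η) ^ (4 * (q / k)) * Real.exp (8 * k ^ 2 / η ^ 2 * u)) := by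
  have hX : 0 < 1 + η := by linarith
  have hSle := geo_block_sum k (q / k) η hη
  set l := q / k with hl
  set E := Real.exp (8 * k ^ 2 / η ^ 2 * u) with hE
  have hEpos : 0 < E := Real.exp_pos _
  set s := (1 + η) ^ l with hs
  have hspos : 0 < s := by positivity
  set S := ∑ r ∈ range (k * l), (1 + η) ^ (r / k) with hS
  have hS0 : 0 ≤ S := Finset.sum_nonneg (fun r _ => by positivity)
  have h4 : (1 + η) ^ (4 * l) = s ^ 4 := by rw [hs, ← pow_mul, mul_comm]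
  have h1 := hstep (fun r => (1 + η) ^ (r / k)) (fun r => (1 + η) ^ (2 * (r / k)) / s ^ 2)
    (fun r => by positivity) (fun r => by positivity)
  have h2 : ∑ r ∈ range (k * l), ((1 + η) ^ (r / k))⁻¹ *
      ((1 + η) ^ (2 * (r / k)) / s ^ 2 * Z q u +
        ((1 + η) ^ (2 * (r / k)) / s ^ 2)⁻¹ * Z r u) ≤
      S * ((s ^ 2)⁻¹ * Z q u + s ^ 2 * (δ * E)) := by
    rw [hS, Finset.sum_mul]
    apply Finset.sum_le_sum
    intro r hrr
    have hb := hr r hrr
    have e2 : (1 + η) ^ (2 * (r / k)) = ((1 + η) ^ (r / k)) ^ 2 := by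
      rw [← pow_mul, mul_comm]
    have e4 : (1 + η) ^ (4 * (r / k)) = ((1 + η) ^ (r / k)) ^ 4 := by
      rw [← pow_mul, mul_comm]
    rw [e4] at hb
    rw [e2]
    set p := (1 + η) ^ (r / k) with hp
    have hppos : 0 < p := by positivity
    have e5 : p⁻¹ * (p ^ 2 / s ^ 2 * Z q u + (p ^ 2 / s ^ 2)⁻¹ * Z r u) =
        p * ((s ^ 2)⁻¹ * Z q u) + (s ^ 2 / p ^ 3) * Z r u := by
      field_simp
    have e6 : (s ^ 2 / p ^ 3) * (δ * p ^ 4 * E) = p * (s ^ 2 * (δ * E)) := by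
      field_simp
    rw [e5, mul_add, ← e6]
    have h7 : (s ^ 2 / p ^ 3) * Z r u ≤ (s ^ 2 / p ^ 3) * (δ * p ^ 4 * E) :=
      mul_le_mul_of_nonneg_left hb (by positivity)
    linarith
  have h3 : 0 ≤ (s ^ 2)⁻¹ * Z q u + s ^ 2 * (δ * E) := by positivity
  have h5 : S ^ 2 ≤ (k / η * s) ^ 2 := pow_le_pow_left₀ hS0 hSle 2
  calc Z' q u ≤ 4 * S * (S * ((s ^ 2)⁻¹ * Z q u + s ^ 2 * (δ * E))) :=
        le_trans h1 (mul_le_mul_of_nonneg_left h2 (by positivity))
    _ = 4 * (S ^ 2 * ((s ^ 2)⁻¹ * Z q u + s ^ 2 * (δ * E))) := by ring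
    _ ≤ 4 * ((k / η * s) ^ 2 * ((s ^ 2)⁻¹ * Z q u + s ^ 2 * (δ * E))) := by
        have := mul_le_mul_of_nonneg_right h5 h3
        linarith
    _ = _ := by
        rw [h4]
        field_simp

theorem growth (k R : ℕ) (η δ : ℝ) (hη : 0 < η) (hδ : 0 < δ)
    (Z Z' : ℕ → ℝ → ℝ)
    (hZ : ∀ q < R * k, ∀ u, HasDerivAt (Z q) (Z' q u) u)
    (hZnn : ∀ q < R * k, ∀ u ∈ Set.Icc (0 : ℝ) 1, 0 ≤ Z q u)
    (hZ0 : ∀ q < R * k, Z q 0 ≤ δ)
    (hstep : ∀ q < R * k, ∀ u, 0 ≤ u → u < 1 → ∀ β κ : ℕ → ℝ, (∀ r, 0 < β r) → (∀ r, 0 < κ r) →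
      Z' q u ≤ 4 * (∑ r ∈ range (k * (q / k)), β r) * ∑ r ∈ range (k * (q / k)),
        (β r)⁻¹ * (κ r * Z q u + (κ r)⁻¹ * Z r u)) :
    ∀ q < R * k, ∀ u ∈ Set.Icc (0 : ℝ) 1,
      Z q u ≤ δ * (1 + η) ^ (4 * (q / k)) * Real.exp (8 * k ^ 2 / η ^ 2 * u) := by
  intro q
  induction q using Nat.strong_induction_on with
  | _ q ih =>
  intro hq u hu
  have hkey : ∀ v, 0 < v → v < 1 → Z' q v ≤ 4 * k ^ 2 / η ^ 2 * (Z q v +
      δ * (1 + η) ^ (4 * (q / k)) * Real.exp (8 * k ^ 2 / η ^ 2 * v)) := by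
    intro v hv0 hv1
    have hv : v ∈ Set.Icc (0 : ℝ) 1 := ⟨hv0.le, hv1.le⟩
    apply growth_deriv_bound k η δ hη hδ Z Z' q v (hZnn q hq v hv)
    · intro r hr
      have hr' : r < k * (q / k) := Finset.mem_range.1 hr
      have hrq : r < q := lt_of_lt_of_le hr' (Nat.mul_div_le q k)
      exact ih r hrq (lt_trans hrq hq) v hv
    · exact hstep q hq v hv0.le hv1
  set c : ℝ := 4 * k ^ 2 / η ^ 2 with hc
  have hc2 : 8 * (k : ℝ) ^ 2 / η ^ 2 = 2 * c := by rw [hc]; ring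
  rw [hc2] at hkey ⊢
  set A : ℝ := δ * (1 + η) ^ (4 * (q / k)) with hA
  let h : ℝ → ℝ := fun v => (Z q v - A * Real.exp (2 * c * v)) * Real.exp (-c * v)
  have hderiv : ∀ v, HasDerivAt h
      ((Z' q v - A * (Real.exp (2 * c * v) * (2 * c))) * Real.exp (-c * v) +
        (Z q v - A * Real.exp (2 * c * v)) * (Real.exp (-c * v) * (-c))) v := by
    intro v
    have d1 : HasDerivAt (fun v : ℝ => Real.exp (2 * c * v)) (Real.exp (2 * c * v) * (2 * c)) v := by
      have := ((hasDerivAt_id v).const_mul (2 * c)).exp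
      simpa using this
    have d2 : HasDerivAt (fun v : ℝ => Real.exp (-c * v)) (Real.exp (-c * v) * (-c)) v := by
      have := ((hasDerivAt_id v).const_mul (-c)).exp
      simpa using this
    exact ((hZ q hq v).sub (d1.const_mul A)).mul d2
  have hanti : AntitoneOn h (Set.Icc 0 1) := by
    apply antitoneOn_of_deriv_nonpos (convex_Icc 0 1)
    · exact fun v _ => (hderiv v).continuousAt.continuousWithinAt
    · exact fun v _ => (hderiv v).differentiableAt.differentiableWithinAt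
    · intro v hv
      rw [interior_Icc] at hv
      rw [(hderiv v).deriv]
      have hE : 0 < Real.exp (-c * v) := Real.exp_pos _
      have hk := hkey v hv.1 hv.2
      have e : (Z' q v - A * (Real.exp (2 * c * v) * (2 * c))) * Real.exp (-c * v) +
        (Z q v - A * Real.exp (2 * c * v)) * (Real.exp (-c * v) * (-c)) =
        (Z' q v - c * (Z q v + A * Real.exp (2 * c * v))) * Real.exp (-c * v) := by ring
      rw [e]
      apply mul_nonpos_of_nonpos_of_nonneg _ hE.le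
      linarith
  have h0 : h 0 ≤ 0 := by
    have hX : (1 : ℝ) ≤ (1 + η) ^ (4 * (q / k)) := one_le_pow₀ (by linarith)
    have hz := hZ0 q hq
    have hAδ : δ ≤ A := by
      rw [hA]
      nlinarith
    simp only [h, mul_zero, Real.exp_zero, mul_one]
    linarith
  have h1 : h u ≤ h 0 := hanti (Set.left_mem_Icc.2 zero_le_one) hu hu.1
  have h2 : h u ≤ 0 := le_trans h1 h0
  have hE : 0 < Real.exp (-c * u) := Real.exp_pos _
  have h3 : Z q u - A * Real.exp (2 * c * u) ≤ 0 := by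
    by_contra hcon
    push Not at hcon
    have := mul_pos hcon hE
    simp only [h] at h2
    linarith
  linarith

theorem growth_final (k R : ℕ) (η δ : ℝ) (hη : 0 < η) (hδ : 0 < δ)
    (Z : ℕ → ℝ → ℝ)
    (hZ : ∀ q < R * k, ∀ u ∈ Set.Icc (0 : ℝ) 1,
      Z q u ≤ δ * (1 + η) ^ (4 * (q / k)) * Real.exp (8 * k ^ 2 / η ^ 2 * u))
    (V V' : ℝ → ℝ) (hV : ∀ u, HasDerivAt V (V' u) u) (hV0 : V 0 = 0)
    (hstep : ∀ u, 0 ≤ u → u < 1 → ∀ β κ : ℕ → ℝ, (∀ r, 0 < β r) → (∀ r, 0 < κ r) →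
      V' u ≤ 4 * (∑ r ∈ range (R * k), β r) * ∑ r ∈ range (R * k),
        (β r)⁻¹ * (κ r * 1 + (κ r)⁻¹ * Z r u)) :
    V 1 ≤ 2 * (1 + η) ^ (2 * R) * Real.sqrt δ * Real.exp (4 * k ^ 2 / η ^ 2) := by
  set c : ℝ := 4 * k ^ 2 / η ^ 2 with hc
  have hc2 : 8 * (k : ℝ) ^ 2 / η ^ 2 = 2 * c := by rw [hc]; ring
  rw [hc2] at hZ
  set w := Real.sqrt δ with hw
  have hwpos : 0 < w := Real.sqrt_pos.2 hδ
  have hw2 : w ^ 2 = δ := Real.sq_sqrt hδ.le
  have hX : 0 < 1 + η := by linarith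
  set A : ℝ := 2 * (1 + η) ^ (2 * R) * w with hA
  have hkey : ∀ v, 0 < v → v < 1 → V' v ≤ A * (Real.exp (c * v) * c) := by
    intro v hv0 hv1
    have hv : v ∈ Set.Icc (0 : ℝ) 1 := ⟨hv0.le, hv1.le⟩
    set E := Real.exp (c * v) with hE
    have hEpos : 0 < E := Real.exp_pos _
    have hE2 : Real.exp (2 * c * v) = E ^ 2 := by
      rw [hE, ← Real.exp_nat_mul]
      congr 1
      push_cast
      ring
    have hSle := geo_block_sum k R η hη
    rw [mul_comm k R] at hSle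
    set S := ∑ r ∈ range (R * k), (1 + η) ^ (r / k) with hS
    have hS0 : 0 ≤ S := Finset.sum_nonneg (fun r _ => by positivity)
    have h1 := hstep v hv0.le hv1 (fun r => (1 + η) ^ (r / k))
      (fun r => w * (1 + η) ^ (2 * (r / k)) * E) (fun r => by positivity) (fun r => by positivity)
    have h2 : ∑ r ∈ range (R * k), ((1 + η) ^ (r / k))⁻¹ *
        (w * (1 + η) ^ (2 * (r / k)) * E * 1 +
          (w * (1 + η) ^ (2 * (r / k)) * E)⁻¹ * Z r v) ≤ S * (2 * w * E) := by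
      rw [hS, Finset.sum_mul]
      apply Finset.sum_le_sum
      intro r hrr
      have hb := hZ r (Finset.mem_range.1 hrr) v hv
      have e2 : (1 + η) ^ (2 * (r / k)) = ((1 + η) ^ (r / k)) ^ 2 := by
        rw [← pow_mul, mul_comm]
      have e4 : (1 + η) ^ (4 * (r / k)) = ((1 + η) ^ (r / k)) ^ 4 := by
        rw [← pow_mul, mul_comm]
      rw [e4, hE2, ← hw2] at hb
      rw [e2]
      set p := (1 + η) ^ (r / k) with hp
      have hppos : 0 < p := by positivity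
      have e5 : p⁻¹ * (w * p ^ 2 * E * 1 + (w * p ^ 2 * E)⁻¹ * Z r v) =
          p * (w * E) + (w * p ^ 3 * E)⁻¹ * Z r v := by
        field_simp
      have e6 : (w * p ^ 3 * E)⁻¹ * (w ^ 2 * p ^ 4 * E ^ 2) = p * (w * E) := by
        field_simp
      have h7 : (w * p ^ 3 * E)⁻¹ * Z r v ≤ (w * p ^ 3 * E)⁻¹ * (w ^ 2 * p ^ 4 * E ^ 2) :=
        mul_le_mul_of_nonneg_left hb (by positivity)
      rw [e6] at h7
      rw [e5]
      linarith
    have h5 : S ^ 2 ≤ (k / η * (1 + η) ^ R) ^ 2 := pow_le_pow_left₀ hS0 hSle 2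
    have h6 : (1 + η) ^ (2 * R) = ((1 + η) ^ R) ^ 2 := by rw [← pow_mul, mul_comm]
    calc V' v ≤ 4 * S * (S * (2 * w * E)) :=
          le_trans h1 (mul_le_mul_of_nonneg_left h2 (by positivity))
      _ = S ^ 2 * (8 * w * E) := by ring
      _ ≤ (k / η * (1 + η) ^ R) ^ 2 * (8 * w * E) :=
          mul_le_mul_of_nonneg_right h5 (by positivity)
      _ = A * (E * c) := by
          rw [hA, hc, h6]
          field_simp
          ring
  let h : ℝ → ℝ := fun v => V v - A * Real.exp (c * v)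
  have hderiv : ∀ v, HasDerivAt h (V' v - A * (Real.exp (c * v) * c)) v := by
    intro v
    have d1 : HasDerivAt (fun v : ℝ => Real.exp (c * v)) (Real.exp (c * v) * c) v := by
      have := ((hasDerivAt_id v).const_mul c).exp
      simpa using this
    exact (hV v).sub (d1.const_mul A)
  have hanti : AntitoneOn h (Set.Icc 0 1) := by
    apply antitoneOn_of_deriv_nonpos (convex_Icc 0 1)
    · exact fun v _ => (hderiv v).continuousAt.continuousWithinAt
    · exact fun v _ => (hderiv v).differentiableAt.differentiableWithinAt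
    · intro v hv
      rw [interior_Icc] at hv
      rw [(hderiv v).deriv]
      have hk := hkey v hv.1 hv.2
      linarith
  have h1 : h 1 ≤ h 0 :=
    hanti (Set.left_mem_Icc.2 zero_le_one) (Set.right_mem_Icc.2 zero_le_one) zero_le_one
  simp only [h, mul_zero, Real.exp_zero, mul_one, hV0] at h1
  have hApos : 0 < A := by positivity
  linarith

theorem eta_choice (R k : ℕ) (hR : 1 ≤ R) (hk : 1 ≤ k) :
    ∃ η : ℝ, 0 < η ∧ (1 + η) ^ (4 * R) * Real.exp (8 * k ^ 2 / η ^ 2) ≤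
      Real.exp (10 * ((R : ℝ) * k) ^ ((2 : ℝ) / 3)) := by
  have hR' : (0 : ℝ) < R := by exact_mod_cast hR
  have hk' : (0 : ℝ) < k := by exact_mod_cast hk
  set X : ℝ := ((R : ℝ) * k) ^ ((2 : ℝ) / 3) with hX
  have hXpos : 0 < X := Real.rpow_pos_of_pos (by positivity) _
  have hX3 : X ^ 3 = ((R : ℝ) * k) ^ 2 := by
    rw [hX, ← Real.rpow_natCast, ← Real.rpow_mul (by positivity), ← Real.rpow_natCast]
    norm_num
  refine ⟨3 / 2 * X / R, by positivity, ?_⟩
  have h1 : (1 + 3 / 2 * X / R) ^ (4 * R) ≤ Real.exp (6 * X) := by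
    have h2 : 1 + 3 / 2 * X / R ≤ Real.exp (3 / 2 * X / R) := by
      have := Real.add_one_le_exp (3 / 2 * X / R)
      linarith
    have h3 : (1 + 3 / 2 * X / R) ^ (4 * R) ≤ Real.exp (3 / 2 * X / R) ^ (4 * R) :=
      pow_le_pow_left₀ (by positivity) h2 _
    rw [← Real.exp_nat_mul] at h3
    have h4 : ((4 * R : ℕ) : ℝ) * (3 / 2 * X / R) = 6 * X := by
      push_cast
      field_simp
      ring
    rwa [h4] at h3
  have h5 : 8 * (k : ℝ) ^ 2 / (3 / 2 * X / R) ^ 2 = 32 / 9 * X := by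
    have h6 : (k : ℝ) ^ 2 * R ^ 2 = X ^ 3 := by rw [hX3]; ring
    have h7 : 8 * (k : ℝ) ^ 2 / (3 / 2 * X / R) ^ 2 = 32 / 9 * ((k : ℝ) ^ 2 * R ^ 2) / X ^ 2 := by
      field_simp
      ring
    rw [h7, h6]
    field_simp
  rw [h5]
  calc (1 + 3 / 2 * X / R) ^ (4 * R) * Real.exp (32 / 9 * X)
      ≤ Real.exp (6 * X) * Real.exp (32 / 9 * X) :=
        mul_le_mul_of_nonneg_right h1 (Real.exp_pos _).le
    _ = Real.exp (6 * X + 32 / 9 * X) := (Real.exp_add _ _).symm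
    _ ≤ Real.exp (10 * X) := by
        apply Real.exp_le_exp.2
        linarith

end

end Pool.Agent.H.MP_58d537_lc.SubE
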