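import Pool.Agent.H.MP_58d537_lc.A20S.Defs

/-!
# The key lemma: correlations of transition probabilities with input bits
-/

set_option autoImplicit false

open Finset
open scoped InnerProductSpace

namespace Pool.Agent.H.MP_58d537_lc.SubE

noncomputable section

section ortho

variable {E : Type*} [NormedAddCommGroup E] [InnerProductSpace ℂ E] {ι κ : Type*}

/-- Bessel's inequality for an orthogonal family -/
theorem bessel_orth (J : Finset κ) (C : κ → E)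
    (hC : ∀ i ∈ J, ∀ j ∈ J, i ≠ j → ⟪C i, C j⟫_ℂ = 0) (v : E) :
    ∑ j ∈ J, ‖⟪C j, v⟫_ℂ‖ ^ 2 / ‖C j‖ ^ 2 ≤ ‖v‖ ^ 2 := by
  classical
  set J' := J.filter (fun j => C j ≠ 0) with hJ'
  have h1 : ∑ j ∈ J, ‖⟪C j, v⟫_ℂ‖ ^ 2 / ‖C j‖ ^ 2 = ∑ j ∈ J', ‖⟪C j, v⟫_ℂ‖ ^ 2 / ‖C j‖ ^ 2 := by
    rw [hJ', Finset.sum_filter]
    refine Finset.sum_congr rfl (fun j _ => ?_)
    by_cases h : C j = 0
    · simp [h]
    · simp [h]
  have hne : ∀ j : J', ‖C j‖ ≠ 0 := fun j => norm_ne_zero_iff.2 (Finset.mem_filter.1 j.2).2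
  set e : J' → E := fun j => ((‖C j‖⁻¹ : ℝ) : ℂ) • C j with he
  have ho : Orthonormal ℂ e := by
    constructor
    · intro j
      rw [he]
      simp only [norm_smul, Complex.norm_real, norm_inv, norm_norm]
      exact inv_mul_cancel₀ (hne j)
    · intro i j hij
      rw [he]
      simp only [inner_smul_left, inner_smul_right]
      rw [hC i (Finset.mem_filter.1 i.2).1 j (Finset.mem_filter.1 j.2).1
        (fun h => hij (Subtype.ext h))]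
      simp
  have h2 := ho.sum_inner_products_le v (s := Finset.univ)
  rw [h1, ← Finset.sum_coe_sort J' (fun j => ‖⟪C j, v⟫_ℂ‖ ^ 2 / ‖C j‖ ^ 2)]
  refine le_trans (le_of_eq ?_) h2
  refine Finset.sum_congr rfl (fun j _ => ?_)
  rw [he]
  simp only [inner_smul_left, norm_mul, Complex.conj_ofReal, Complex.norm_real, norm_inv,
    norm_norm]
  rw [mul_pow, inv_pow]
  ring

/-- correlations of two orthogonal families -/
theorem ortho_corr (I : Finset ι) (J : Finset κ) (A : ι → E) (C : κ → E)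
    (hA : ∀ i ∈ I, ∀ j ∈ I, i ≠ j → ⟪A i, A j⟫_ℂ = 0)
    (hC : ∀ i ∈ J, ∀ j ∈ J, i ≠ j → ⟪C i, C j⟫_ℂ = 0) {θ : ℝ} (hθ : 0 < θ) :
    ∑ i ∈ I, ∑ j ∈ J, ‖⟪A i, C j⟫_ℂ‖ ^ 2 ≤
      θ / 2 * ∑ i ∈ I, ‖A i‖ ^ 4 + θ⁻¹ / 2 * ∑ j ∈ J, ‖C j‖ ^ 4 := by
  have h1 : ∀ i j, ‖⟪A i, C j⟫_ℂ‖ ^ 2 ≤
      θ / 2 * ‖A i‖ ^ 2 * (‖⟪C j, A i⟫_ℂ‖ ^ 2 / ‖C j‖ ^ 2) +
      θ⁻¹ / 2 * ‖C j‖ ^ 2 * (‖⟪A i, C j⟫_ℂ‖ ^ 2 / ‖A i‖ ^ 2) := by
    intro i j
    rw [norm_inner_symm (C j) (A i)]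
    by_cases ha : A i = 0
    · simp [ha]
    by_cases hc : C j = 0
    · simp [hc]
    have ha' : 0 < ‖A i‖ := norm_pos_iff.2 ha
    have hc' : 0 < ‖C j‖ := norm_pos_iff.2 hc
    set g := ‖⟪A i, C j⟫_ℂ‖ ^ 2 with hg
    have hg0 : 0 ≤ g := by positivity
    have e : θ / 2 * ‖A i‖ ^ 2 * (g / ‖C j‖ ^ 2) + θ⁻¹ / 2 * ‖C j‖ ^ 2 * (g / ‖A i‖ ^ 2) - g
        = g / (2 * θ * ‖A i‖ ^ 2 * ‖C j‖ ^ 2) * (θ * ‖A i‖ ^ 2 - ‖C j‖ ^ 2) ^ 2 := by
      field_simp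
      ring
    have : 0 ≤ g / (2 * θ * ‖A i‖ ^ 2 * ‖C j‖ ^ 2) * (θ * ‖A i‖ ^ 2 - ‖C j‖ ^ 2) ^ 2 := by
      positivity
    linarith
  calc ∑ i ∈ I, ∑ j ∈ J, ‖⟪A i, C j⟫_ℂ‖ ^ 2
      ≤ ∑ i ∈ I, ∑ j ∈ J, (θ / 2 * ‖A i‖ ^ 2 * (‖⟪C j, A i⟫_ℂ‖ ^ 2 / ‖C j‖ ^ 2) +
          θ⁻¹ / 2 * ‖C j‖ ^ 2 * (‖⟪A i, C j⟫_ℂ‖ ^ 2 / ‖A i‖ ^ 2)) :=
        Finset.sum_le_sum (fun i _ => Finset.sum_le_sum (fun j _ => h1 i j))
    _ = ∑ i ∈ I, θ / 2 * ‖A i‖ ^ 2 * (∑ j ∈ J, ‖⟪C j, A i⟫_ℂ‖ ^ 2 / ‖C j‖ ^ 2) +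
        ∑ j ∈ J, θ⁻¹ / 2 * ‖C j‖ ^ 2 * (∑ i ∈ I, ‖⟪A i, C j⟫_ℂ‖ ^ 2 / ‖A i‖ ^ 2) := by
        simp only [Finset.sum_add_distrib, Finset.mul_sum]
        congr 1
        rw [Finset.sum_comm]
    _ ≤ ∑ i ∈ I, θ / 2 * ‖A i‖ ^ 2 * ‖A i‖ ^ 2 + ∑ j ∈ J, θ⁻¹ / 2 * ‖C j‖ ^ 2 * ‖C j‖ ^ 2 := by
        gcongr with i _ j _
        · exact bessel_orth J C hC (A i)
        · exact bessel_orth I A hA (C j)
    _ = _ := by
        rw [Finset.mul_sum, Finset.mul_sum]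
        congr 1
        · exact Finset.sum_congr rfl (fun i _ => by ring)
        · exact Finset.sum_congr rfl (fun i _ => by ring)

end ortho

variable {N : ℕ}
variable {H : Type*} [NormedAddCommGroup H] [InnerProductSpace ℂ H]

/-- the contributions of the query `q` to the derivative in the direction `j` -/
def MSys.CC (A : MSys N H) (φ : (Fin N → Bool) → (Fin N → Bool)) (q : ℕ) (j : Fin N) :
    ℕ → (Fin N → Bool) → H
  | 0, _ => 0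
  | s + 1, x => A.U s (A.O s (φ x)
      (if q = s then ((sg j x : ℝ) : ℂ) • A.P s j (A.st s (φ (flip j x)))
        else MSys.CC A φ q j s x))

theorem sg_abs (j : Fin N) (x : Fin N → Bool) : |sg j x| = 1 := by
  unfold sg; split_ifs <;> norm_num

theorem MSys.norm_CC (A : MSys N H) (φ : (Fin N → Bool) → (Fin N → Bool)) (q : ℕ) (j : Fin N)
    (s : ℕ) (x : Fin N → Bool) (hq : q < s) :
    ‖A.CC φ q j s x‖ = ‖A.P q j (A.st q (φ (flip j x)))‖ := by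
  induction s with
  | zero => omega
  | succ s ih =>
    rw [MSys.CC, LinearIsometryEquiv.norm_map, LinearIsometryEquiv.norm_map]
    by_cases h : q = s
    · rw [if_pos h, norm_smul, Complex.norm_real, Real.norm_eq_abs, sg_abs, one_mul, h]
    · rw [if_neg h]
      exact ih (by omega)

theorem MSys.orth_CC (A : MSys N H) (φ : (Fin N → Bool) → (Fin N → Bool)) (q : ℕ)
    {i j : Fin N} (hij : i ≠ j) (s : ℕ) (x : Fin N → Bool) :
    ⟪A.CC φ q i s x, A.CC φ q j s x⟫_ℂ = 0 := by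
  induction s with
  | zero => simp [MSys.CC]
  | succ s ih =>
    rw [MSys.CC, MSys.CC, LinearIsometryEquiv.inner_map_map, LinearIsometryEquiv.inner_map_map]
    by_cases h : q = s
    · rw [if_pos h, if_pos h, inner_smul_left, inner_smul_right, A.symm, A.orth s i j hij,
        inner_zero_right]
      simp
    · rw [if_neg h, if_neg h]
      exact ih

/-- the discrete derivative of the state -/
def MSys.DD (A : MSys N H) (φ : (Fin N → Bool) → (Fin N → Bool)) (j : Fin N) (s : ℕ)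
    (x : Fin N → Bool) : H :=
  ((sg j x / 2 : ℝ) : ℂ) • (A.st s (φ x) - A.st s (φ (flip j x)))

theorem MSys.DD_eq (A : MSys N H) (φ : (Fin N → Bool) → (Fin N → Bool)) (j : Fin N)
    (hφ : ∀ x, φ (flip j x) = flip j (φ x)) (s : ℕ) (x : Fin N → Bool) :
    A.DD φ j s x = ∑ q ∈ range s, A.CC φ q j s x := by
  induction s with
  | zero => simp [MSys.DD, MSys.st]
  | succ s ih =>
    have e1 : A.st (s + 1) (φ (flip j x)) =
        A.U s (A.O s (φ x) (A.st s (φ (flip j x)) -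
          (2 : ℂ) • A.P s j (A.st s (φ (flip j x))))) := by
      rw [MSys.st, hφ x, A.query, ← hφ x]
    have e2 : A.st (s + 1) (φ x) = A.U s (A.O s (φ x) (A.st s (φ x))) := rfl
    rw [Finset.sum_range_succ]
    have e3 : A.CC φ s j (s + 1) x = A.U s (A.O s (φ x)
        (((sg j x : ℝ) : ℂ) • A.P s j (A.st s (φ (flip j x))))) := by
      rw [MSys.CC, if_pos rfl]
    have e4 : ∑ q ∈ range s, A.CC φ q j (s + 1) x =
        A.U s (A.O s (φ x) (∑ q ∈ range s, A.CC φ q j s x)) := by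
      rw [map_sum, map_sum]
      refine Finset.sum_congr rfl (fun q hq => ?_)
      rw [MSys.CC, if_neg (Finset.mem_range.1 hq).ne]
    rw [e3, e4, ← ih, ← map_add, ← map_add, MSys.DD, e1, e2, ← map_sub, ← map_sub,
      ← map_smul, ← map_smul, MSys.DD]
    congr 2
    rw [smul_sub, smul_sub, smul_sub, smul_smul]
    have e5 : ((sg j x / 2 : ℝ) : ℂ) * 2 = ((sg j x : ℝ) : ℂ) := by
      push_cast; ring
    rw [e5]
    abel

/-- correlation of a transition probability with a bit -/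
theorem avg_sg_Q (A : MSys N H) (φ : (Fin N → Bool) → (Fin N → Bool)) (j : Fin N) (s : ℕ)
    (Q : H →ₗ[ℂ] H) (hQs : ∀ u v, ⟪Q u, v⟫_ℂ = ⟪u, Q v⟫_ℂ) (hQi : ∀ v, Q (Q v) = Q v) :
    avg (fun x => sg j x * ‖Q (A.st s (φ x))‖ ^ 2) =
      2 * avg (fun x => (⟪Q (A.st s (φ x)), A.DD φ j s x⟫_ℂ).re) := by
  set F : (Fin N → Bool) → ℝ := fun x =>
    sg j x * (⟪Q (A.st s (φ x)), A.st s (φ (flip j x))⟫_ℂ).re with hF
  have hF0 : avg F = 0 := by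
    have h1 := avg_flip j F
    have h2 : (fun x => F (flip j x)) = fun x => (-1) * F x := by
      ext x
      rw [hF]
      simp only [sg_flip, flip_flip]
      have : (⟪Q (A.st s (φ (flip j x))), A.st s (φ x)⟫_ℂ).re =
          (⟪Q (A.st s (φ x)), A.st s (φ (flip j x))⟫_ℂ).re := by
        rw [hQs, ← inner_conj_symm, Complex.conj_re]
      rw [this]
      ring
    rw [h2, avg_const_mul] at h1
    linarith
  have h3 : ∀ x, sg j x * ‖Q (A.st s (φ x))‖ ^ 2 =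
      2 * (⟪Q (A.st s (φ x)), A.DD φ j s x⟫_ℂ).re + F x := by
    intro x
    rw [hF]
    simp only [MSys.DD, inner_smul_right, inner_sub_right]
    have h4 : ⟪Q (A.st s (φ x)), A.st s (φ x)⟫_ℂ = ((‖Q (A.st s (φ x))‖ ^ 2 : ℝ) : ℂ) := by
      rw [← hQi (A.st s (φ x)), hQs, hQi, inner_self_eq_norm_sq_to_K]
      push_cast
      rfl
    rw [h4, Complex.re_ofReal_mul, Complex.sub_re, Complex.ofReal_re]
    ring
  rw [show (fun x => sg j x * ‖Q (A.st s (φ x))‖ ^ 2) = fun x =>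
    2 * (⟪Q (A.st s (φ x)), A.DD φ j s x⟫_ℂ).re + F x from funext h3, avg_add, hF0, add_zero,
    avg_const_mul]

/-- a vector valued function on the cube as a vector -/
def vec (f : (Fin N → Bool) → H) : PiLp 2 (fun _ : Fin N → Bool => H) := WithLp.toLp 2 f

theorem inner_vec (f g : (Fin N → Bool) → H) : ⟪vec f, vec g⟫_ℂ = ∑ x, ⟪f x, g x⟫_ℂ := by
  simp [vec, PiLp.inner_apply]

omit [InnerProductSpace ℂ H] in
theorem norm_vec_sq (f : (Fin N → Bool) → H) : ‖vec f‖ ^ 2 = 2 ^ N * avg (fun x => ‖f x‖ ^ 2) := by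
  rw [PiLp.norm_sq_eq_of_L2, avg]
  have : (2 : ℝ) ^ N ≠ 0 := by positivity
  field_simp
  rfl

omit [InnerProductSpace ℂ H] in
theorem norm_vec_four (f : (Fin N → Bool) → H) :
    ‖vec f‖ ^ 4 = (2 ^ N) ^ 2 * (avg (fun x => ‖f x‖ ^ 2)) ^ 2 := by
  rw [show ‖vec f‖ ^ 4 = (‖vec f‖ ^ 2) ^ 2 by ring, norm_vec_sq]
  ring

omit [InnerProductSpace ℂ H] in
theorem vec_sum {κ : Type*} (s : Finset κ) (f : κ → (Fin N → Bool) → H) :
    vec (fun x => ∑ q ∈ s, f q x) = ∑ q ∈ s, vec (f q) := by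
  ext x
  simp [vec]

theorem avg_re_inner (f g : (Fin N → Bool) → H) :
    avg (fun x => (⟪f x, g x⟫_ℂ).re) = (⟪vec f, vec g⟫_ℂ).re / 2 ^ N := by
  rw [inner_vec, Complex.re_sum, avg]

-- JOB A (Key.lean)
theorem MSys.key (A : MSys N H) (φ : (Fin N → Bool) → (Fin N → Bool)) (J : Finset (Fin N))
    (hφ : ∀ j ∈ J, ∀ x, φ (flip j x) = flip j (φ x))
    {ι : Type*} (I : Finset ι) (Q : ι → H →ₗ[ℂ] H)
    (hQs : ∀ i u v, ⟪Q i u, v⟫_ℂ = ⟪u, Q i v⟫_ℂ) (hQi : ∀ i v, Q i (Q i v) = Q i v)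
    (hQo : ∀ i ∈ I, ∀ i' ∈ I, i ≠ i' → ∀ v, Q i (Q i' v) = 0)
    (s : ℕ) (β θ : ℕ → ℝ) (hβ : ∀ q, 0 < β q) (hθ : ∀ q, 0 < θ q) :
    ∑ i ∈ I, ∑ j ∈ J, (avg (fun x => sg j x * ‖Q i (A.st s (φ x))‖ ^ 2)) ^ 2 ≤
      2 * (∑ q ∈ range s, β q) * ∑ q ∈ range s, (β q)⁻¹ *
        (θ q * ∑ i ∈ I, (avg (fun x => ‖Q i (A.st s (φ x))‖ ^ 2)) ^ 2 +
         (θ q)⁻¹ * ∑ j ∈ J, (avg (fun x => ‖A.P q j (A.st q (φ x))‖ ^ 2)) ^ 2) := by
  have h2N : (0 : ℝ) < 2 ^ N := by positivity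
  set a : ι → PiLp 2 (fun _ : Fin N → Bool => H) := fun i =>
    vec (fun x => Q i (A.st s (φ x))) with ha
  set c : ℕ → Fin N → PiLp 2 (fun _ : Fin N → Bool => H) := fun q j =>
    vec (fun x => A.CC φ q j s x) with hc
  -- orthogonality
  have hao : ∀ i ∈ I, ∀ i' ∈ I, i ≠ i' → ⟪a i, a i'⟫_ℂ = 0 := by
    intro i hi i' hi' hne
    rw [ha]
    simp only
    rw [inner_vec]
    refine Finset.sum_eq_zero (fun x _ => ?_)
    rw [hQs, hQo i hi i' hi' hne, inner_zero_right]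
  have hco : ∀ q, ∀ j ∈ J, ∀ j' ∈ J, j ≠ j' → ⟪c q j, c q j'⟫_ℂ = 0 := by
    intro q j _ j' _ hne
    rw [hc]
    simp only
    rw [inner_vec]
    exact Finset.sum_eq_zero (fun x _ => A.orth_CC φ q hne s x)
  -- the single correlations
  have h1 : ∀ i, ∀ j ∈ J, (avg (fun x => sg j x * ‖Q i (A.st s (φ x))‖ ^ 2)) ^ 2 ≤
      4 / (2 ^ N) ^ 2 * ((∑ q ∈ range s, β q) *
        ∑ q ∈ range s, (β q)⁻¹ * ‖⟪a i, c q j⟫_ℂ‖ ^ 2) := by
    intro i j hj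
    have e1 : vec (A.DD φ j s) = ∑ q ∈ range s, c q j := by
      rw [hc, ← vec_sum]
      congr 1
      ext x
      exact A.DD_eq φ j (hφ j hj) s x
    rw [avg_sg_Q A φ j s (Q i) (hQs i) (hQi i),
      avg_re_inner (fun x => Q i (A.st s (φ x))) (A.DD φ j s), e1, inner_sum, Complex.re_sum]
    have h3 : (∑ q ∈ range s, (⟪a i, c q j⟫_ℂ).re) ^ 2 ≤
        (∑ q ∈ range s, β q) * ∑ q ∈ range s, (β q)⁻¹ * ‖⟪a i, c q j⟫_ℂ‖ ^ 2 := by
      calc (∑ q ∈ range s, (⟪a i, c q j⟫_ℂ).re) ^ 2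
          ≤ (∑ q ∈ range s, β q) * ∑ q ∈ range s, (β q)⁻¹ * ((⟪a i, c q j⟫_ℂ).re) ^ 2 := by
            refine Finset.sum_sq_le_sum_mul_sum_of_sq_le_mul _ (fun q _ => (hβ q).le)
              (fun q _ => mul_nonneg (inv_nonneg.2 (hβ q).le) (sq_nonneg _)) (fun q _ => ?_)
            rw [← mul_assoc, mul_inv_cancel₀ (hβ q).ne', one_mul]
        _ ≤ _ := by
            refine mul_le_mul_of_nonneg_left (Finset.sum_le_sum (fun q _ => ?_))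
              (Finset.sum_nonneg (fun q _ => (hβ q).le))
            refine mul_le_mul_of_nonneg_left ?_ (inv_nonneg.2 (hβ q).le)
            rw [← sq_abs]
            gcongr
            exact Complex.abs_re_le_norm _
    calc (2 * ((∑ q ∈ range s, (⟪a i, c q j⟫_ℂ).re) / 2 ^ N)) ^ 2
        = 4 / (2 ^ N) ^ 2 * (∑ q ∈ range s, (⟪a i, c q j⟫_ℂ).re) ^ 2 := by ring
      _ ≤ _ := by gcongr
  -- norms
  have hcn : ∀ q ∈ range s, ∀ j, ‖c q j‖ ^ 4 =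
      (2 ^ N) ^ 2 * (avg (fun x => ‖A.P q j (A.st q (φ x))‖ ^ 2)) ^ 2 := by
    intro q hq j
    rw [hc]
    simp only
    rw [norm_vec_four]
    congr 2
    rw [← avg_flip j (fun x => ‖A.P q j (A.st q (φ x))‖ ^ 2)]
    congr 1
    ext x
    rw [A.norm_CC φ q j s x (Finset.mem_range.1 hq)]
  calc ∑ i ∈ I, ∑ j ∈ J, (avg (fun x => sg j x * ‖Q i (A.st s (φ x))‖ ^ 2)) ^ 2
      ≤ ∑ i ∈ I, ∑ j ∈ J, 4 / (2 ^ N) ^ 2 * ((∑ q ∈ range s, β q) *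
        ∑ q ∈ range s, (β q)⁻¹ * ‖⟪a i, c q j⟫_ℂ‖ ^ 2) :=
        Finset.sum_le_sum (fun i _ => Finset.sum_le_sum (fun j hj => h1 i j hj))
    _ = 4 / (2 ^ N) ^ 2 * ((∑ q ∈ range s, β q) *
        ∑ q ∈ range s, (β q)⁻¹ * ∑ i ∈ I, ∑ j ∈ J, ‖⟪a i, c q j⟫_ℂ‖ ^ 2) := by
        simp only [← Finset.mul_sum]
        congr 2
        simp only [Finset.mul_sum]
        rw [Finset.sum_congr rfl (fun i _ => Finset.sum_comm), Finset.sum_comm]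
    _ ≤ 4 / (2 ^ N) ^ 2 * ((∑ q ∈ range s, β q) *
        ∑ q ∈ range s, (β q)⁻¹ * (θ q / 2 * ∑ i ∈ I, ‖a i‖ ^ 4 +
          (θ q)⁻¹ / 2 * ∑ j ∈ J, ‖c q j‖ ^ 4)) := by
        have h0 : 0 ≤ ∑ q ∈ range s, β q := Finset.sum_nonneg (fun q _ => (hβ q).le)
        gcongr with q hq
        · exact inv_nonneg.2 (hβ q).le
        · exact ortho_corr I J a (c q) hao (hco q) (hθ q)
    _ = _ := by
        have h5 : ∀ q ∈ range s, (β q)⁻¹ * (θ q / 2 * ∑ i ∈ I, ‖a i‖ ^ 4 +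
            (θ q)⁻¹ / 2 * ∑ j ∈ J, ‖c q j‖ ^ 4) = ((2 ^ N) ^ 2 / 2) * ((β q)⁻¹ *
            (θ q * ∑ i ∈ I, (avg (fun x => ‖Q i (A.st s (φ x))‖ ^ 2)) ^ 2 +
            (θ q)⁻¹ * ∑ j ∈ J, (avg (fun x => ‖A.P q j (A.st q (φ x))‖ ^ 2)) ^ 2)) := by
          intro q hq
          rw [Finset.sum_congr rfl (fun j _ => hcn q hq j),
            Finset.sum_congr rfl (fun i _ => norm_vec_four (fun x => Q i (A.st s (φ x)))),
            ← Finset.mul_sum, ← Finset.mul_sum]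
          ring
        rw [Finset.sum_congr rfl h5, ← Finset.mul_sum]
        generalize (∑ q ∈ range s, β q) = B
        generalize (∑ q ∈ range s, (β q)⁻¹ *
            (θ q * ∑ i ∈ I, (avg (fun x => ‖Q i (A.st s (φ x))‖ ^ 2)) ^ 2 +
            (θ q)⁻¹ * ∑ j ∈ J, (avg (fun x => ‖A.P q j (A.st q (φ x))‖ ^ 2)) ^ 2)) = X
        field_simp
        ring

end

end Pool.Agent.H.MP_58d537_lc.SubE
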