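import Pool.Agent.H.MP_58d537_lc.A20S.Defs
import Pool.Agent.H.MP_58d537_lc.Matrices

/-!
# From matrices to micro-query systems

A round of `k` parallel queries is split into `k` single queries, one for each register.
-/

set_option autoImplicit false

open Finset
open scoped InnerProductSpace

namespace Pool.Agent.H.MP_58d537_lc.SubE

noncomputable section

section General

variable {ι : Type*} [Fintype ι] [DecidableEq ι]

/-- a diagonal matrix with entries `±1` -/
def diagU (d : ι → ℂ) (h1 : ∀ i, d i * d i = 1) (h2 : ∀ i, star (d i) = d i) :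
    Matrix.unitaryGroup ι ℂ :=
  ⟨Matrix.diagonal d, by
    rw [Matrix.mem_unitaryGroup_iff, Matrix.star_eq_conjTranspose, Matrix.diagonal_conjTranspose,
      Matrix.diagonal_mul_diagonal]
    have : (fun i => d i * star d i) = fun _ => 1 := by
      funext q
      rw [Pi.star_apply, h2, h1]
    rw [this, Matrix.diagonal_one]⟩

lemma diagU_apply (d : ι → ℂ) (h1 : ∀ i, d i * d i = 1) (h2 : ∀ i, star (d i) = d i)
    (v : EuclideanSpace ℂ ι) (i : ι) : uE (diagU d h1 h2) v i = d i * v i := by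
  rw [uE_apply]
  change (Matrix.diagonal d).mulVec (WithLp.ofLp v) i = _
  rw [Matrix.mulVec_diagonal]

end General

variable {N k m : ℕ}

/-- the phase of register `l` -/
def ph (x : Fin N → Bool) (l : ℕ) (b : Idx N k m) : ℂ :=
  if h : l < k then Option.elim (b.1 ⟨l, h⟩) (1 : ℂ) (fun i => if x i then -1 else 1) else 1

lemma ph_sq (x : Fin N → Bool) (l : ℕ) (b : Idx N k m) : ph x l b * ph x l b = 1 := by
  unfold ph
  split_ifs with h
  · rcases b.1 ⟨l, h⟩ with _ | i
    · simp
    · simp only [Option.elim_some]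
      cases x i <;> simp
  · simp

lemma ph_star (x : Fin N → Bool) (l : ℕ) (b : Idx N k m) : star (ph x l b) = ph x l b := by
  unfold ph
  split_ifs with h
  · rcases b.1 ⟨l, h⟩ with _ | i
    · simp
    · simp only [Option.elim_some]
      cases x i <;> simp
  · simp

lemma norm_ph (x : Fin N → Bool) (l : ℕ) (b : Idx N k m) : ‖ph x l b‖ = 1 := by
  have h := congrArg norm (ph_sq x l b)
  rw [norm_mul, norm_one] at h
  nlinarith [norm_nonneg (ph x l b)]

/-- indicator: register `l` contains `j` -/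
def pj (l : ℕ) (j : Fin N) (b : Idx N k m) : ℂ :=
  if h : l < k then (if b.1 ⟨l, h⟩ = some j then 1 else 0) else 0

lemma pj_cases (l : ℕ) (j : Fin N) (b : Idx N k m) :
    (pj l j b : ℂ) = 0 ∨ (pj l j b : ℂ) = 1 := by
  unfold pj
  split_ifs <;> simp

lemma ph_flip (x : Fin N → Bool) (l : ℕ) (j : Fin N) (b : Idx N k m) :
    ph (flip j x) l b = ph x l b * (1 - 2 * pj l j b) := by
  unfold ph pj
  split_ifs with h h'
  · rw [h']
    simp only [Option.elim_some, flip, Function.update_self]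
    cases x j <;> norm_num
  · rcases hb : b.1 ⟨l, h⟩ with _ | i
    · simp
    · have hij : i ≠ j := fun e => h' (by rw [hb, e])
      simp [flip, hij]
  · simp

lemma pj_mul (l : ℕ) {i j : Fin N} (hij : i ≠ j) (b : Idx N k m) :
    (pj l i b : ℂ) * pj l j b = 0 := by
  unfold pj
  split_ifs with h h1 h2
  · rw [h1] at h2
    exact absurd (Option.some.inj h2) hij
  all_goals simp

lemma sum_pj_le (l : ℕ) (v : EuclideanSpace ℂ (Idx N k m)) :
    ∑ j : Fin N, ‖dE (pj l j) v‖ ^ 2 ≤ ‖v‖ ^ 2 := by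
  simp only [norm_sq_dE]
  rw [Finset.sum_comm, EuclideanSpace.norm_sq_eq]
  apply Finset.sum_le_sum
  intro b _
  rw [← Finset.sum_mul]
  have h1 : ∑ j : Fin N, ‖(pj l j b : ℂ)‖ ^ 2 ≤ 1 := by
    by_cases h : ∃ j₀, (pj l j₀ b : ℂ) = 1
    · obtain ⟨j₀, hj₀⟩ := h
      rw [Finset.sum_eq_single j₀]
      · rw [hj₀]; simp
      · intro j _ hj
        have h2 := pj_mul (k := k) (m := m) l hj b
        rw [hj₀, mul_one] at h2
        rw [h2]; simp
      · simp
    · push Not at h
      have h3 : ∀ j, (pj l j b : ℂ) = 0 := fun j => (pj_cases l j b).resolve_right (h j)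
      simp [h3]
  calc _ ≤ 1 * ‖v b‖ ^ 2 := mul_le_mul_of_nonneg_right h1 (by positivity)
    _ = _ := one_mul _

/-- the algorithm given by matrices, as a micro-query system -/
def mkM (R : ℕ) (U : Fin (R + 1) → Matrix.unitaryGroup (Idx N k m) ℂ) (s₀ : Idx N k m) :
    MSys N (EuclideanSpace ℂ (Idx N k m)) where
  O q x := uE (diagU (ph x (q % k)) (ph_sq x (q % k)) (ph_star x (q % k)))
  P q j := dE (pj (q % k) j)
  U q := if q % k + 1 = k then
      (if h : q / k < R then uE (U (Fin.succ ⟨q / k, h⟩)) else LinearIsometryEquiv.refl ℂ _)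
    else LinearIsometryEquiv.refl ℂ _
  init := uE (U 0) (EuclideanSpace.single s₀ 1)
  symm q j u v := dE_symm _ (fun b => by
    rcases pj_cases (q % k) j b with h | h <;> rw [h] <;> simp) u v
  idem q j v := dE_idem _ (fun b => by
    rcases pj_cases (q % k) j b with h | h <;> rw [h] <;> simp) v
  orth q i j hij v := by
    ext b
    simp only [dE_apply, ← mul_assoc, pj_mul _ hij, zero_mul]
    rfl
  query q j x v := by
    ext b
    rw [diagU_apply, diagU_apply, ph_flip]
    simp only [PiLp.sub_apply, PiLp.smul_apply, smul_eq_mul, dE_apply]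
    ring
  weight q v := sum_pj_le _ v
  norm_init := by simp

lemma mkM_succ (R : ℕ) (U : Fin (R + 1) → Matrix.unitaryGroup (Idx N k m) ℂ) (s₀ : Idx N k m)
    (q : ℕ) (x : Fin N → Bool) :
    (mkM R U s₀).st (q + 1) x = (mkM R U s₀).U q ((mkM R U s₀).O q x ((mkM R U s₀).st q x)) :=
  rfl

/-- the state inside a round -/
lemma mkM_inside (R : ℕ) (U : Fin (R + 1) → Matrix.unitaryGroup (Idx N k m) ℂ)
    (s₀ : Idx N k m) (x : Fin N → Bool) (r l : ℕ) (hl : l < k) (b : Idx N k m) :
    (mkM R U s₀).st (k * r + l) x b =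
      (∏ l' ∈ range l, ph x l' b) * (mkM R U s₀).st (k * r) x b := by
  induction l with
  | zero => simp
  | succ l ih =>
    have ih' := ih (by omega)
    have hmod : (k * r + l) % k = l := by
      rw [Nat.mul_add_mod, Nat.mod_eq_of_lt (by omega)]
    rw [← add_assoc, mkM_succ]
    have hU : (mkM R U s₀).U (k * r + l) = LinearIsometryEquiv.refl ℂ _ := by
      simp only [mkM]
      rw [if_neg]
      rw [hmod]
      omega
    rw [hU]
    change (uE (diagU (ph x ((k * r + l) % k)) _ _)) ((mkM R U s₀).st (k * r + l) x) b = _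
    rw [diagU_apply, hmod, ih', Finset.prod_range_succ]
    ring

lemma mkM_round (R : ℕ) (U : Fin (R + 1) → Matrix.unitaryGroup (Idx N k m) ℂ)
    (s₀ : Idx N k m) (hk : 1 ≤ k) (x : Fin N → Bool) (r : ℕ) (hr : r < R) :
    (mkM R U s₀).st (k * (r + 1)) x = uE (U (Fin.succ ⟨r, hr⟩))
      (WithLp.toLp 2 (fun b => orc x b * (mkM R U s₀).st (k * r) x b)) := by
  have e1 : k * (r + 1) = (k * r + (k - 1)) + 1 := by
    rw [mul_add]; omega
  have hmod : (k * r + (k - 1)) % k = k - 1 := by
    rw [Nat.mul_add_mod, Nat.mod_eq_of_lt (by omega)]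
  have hdiv : (k * r + (k - 1)) / k = r := by
    rw [Nat.mul_add_div (by omega), Nat.div_eq_of_lt (by omega), add_zero]
  rw [e1, mkM_succ]
  have hU : (mkM R U s₀).U (k * r + (k - 1)) = uE (U (Fin.succ ⟨r, hr⟩)) := by
    simp only [mkM]
    rw [if_pos (by rw [hmod]; omega), dif_pos (by rw [hdiv]; exact hr)]
    congr 3
    simp only [hdiv]
  rw [hU]
  congr 1
  ext b
  change (uE (diagU (ph x ((k * r + (k - 1)) % k)) _ _)) ((mkM R U s₀).st (k * r + (k - 1)) x) b =
    orc x b * (mkM R U s₀).st (k * r) x b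
  rw [diagU_apply, hmod, mkM_inside R U s₀ x r (k - 1) (by omega) b, ← mul_assoc]
  congr 1
  have h1 : ph x (k - 1) b * ∏ l' ∈ range (k - 1), ph x l' b = ∏ l' ∈ range k, ph x l' b := by
    have h3 : range k = range ((k - 1) + 1) := by rw [Nat.sub_add_cancel hk]
    rw [h3, Finset.prod_range_succ, mul_comm]
  rw [h1, ← Fin.prod_univ_eq_prod_range]
  unfold orc
  apply Finset.prod_congr rfl
  intro l _
  unfold ph
  rw [dif_pos l.2]

/-- inside a round the query weights do not change -/
lemma mkM_hround (R : ℕ) (U : Fin (R + 1) → Matrix.unitaryGroup (Idx N k m) ℂ)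
    (s₀ : Idx N k m) (hk : 1 ≤ k) (q : ℕ) (j : Fin N) (x : Fin N → Bool) :
    ‖(mkM R U s₀).P q j ((mkM R U s₀).st q x)‖ =
      ‖(mkM R U s₀).P q j ((mkM R U s₀).st (k * (q / k)) x)‖ := by
  have e1 : q = k * (q / k) + q % k := (Nat.div_add_mod q k).symm
  have e2 : ∀ b, (mkM R U s₀).st q x b =
      (∏ l' ∈ range (q % k), ph x l' b) * (mkM R U s₀).st (k * (q / k)) x b := by
    intro b
    have := mkM_inside R U s₀ x (q / k) (q % k) (Nat.mod_lt _ (by omega)) b
    rwa [← e1] at this
  apply (sq_eq_sq₀ (norm_nonneg _) (norm_nonneg _)).mp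
  change ‖dE (pj (q % k) j) _‖ ^ 2 = ‖dE (pj (q % k) j) _‖ ^ 2
  rw [norm_sq_dE, norm_sq_dE]
  apply Finset.sum_congr rfl
  intro b _
  rw [e2 b, norm_mul, norm_prod]
  simp only [norm_ph, Finset.prod_const_one, one_mul]

end

end Pool.Agent.H.MP_58d537_lc.SubE
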