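import Pool.Agent.H.MP_58d537_lc.A20S.Defs

/-!
# Increments of the second moments of conditional expectations
-/

set_option autoImplicit false

open Finset
open scoped InnerProductSpace

namespace Pool.Agent.H.MP_58d537_lc.SubE

noncomputable section

variable {N : ℕ}

/-- revealing one more coordinate adds the corresponding signed average -/
lemma avgR_insert_sg (f : (Fin N → Bool) → ℝ) {R : Finset (Fin N)} {j : Fin N} (hj : j ∉ R)
    (y : Fin N → Bool) :
    avgR (insert j R) y f = avgR R y f + sg j y * avg (fun x => sg j x * f (ovw R y x)) := by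
  unfold avgR
  have h1 : ∀ x, ovw (insert j R) y x = Function.update (ovw R y x) j (y j) := by
    intro x
    have := ovw_insert hj y x (y j)
    rwa [Function.update_eq_self] at this
  simp only [h1]
  rw [← avg_const_mul, ← avg_add]
  set g : (Fin N → Bool) → ℝ := fun x => f (ovw R y x) + sg j y * (sg j x * f (ovw R y x)) with hg
  have h2 : avg g = avg (fun x => (1 / 2) * (g x + g (flip j x))) := by
    rw [avg_const_mul, avg_add g (fun x => g (flip j x)), avg_flip j g]
    ring
  rw [h2]
  congr 1
  funext x
  simp only [hg]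
  rw [ovw_flip hj, sg_flip]
  have hxj : ovw R y x j = x j := by unfold ovw; simp [hj]
  by_cases h3 : x j = y j
  · have e1 : Function.update (ovw R y x) j (y j) = ovw R y x := by
      rw [← h3, ← hxj]; exact Function.update_eq_self j _
    have e2 : sg j y * sg j x = 1 := by
      have : sg j y = sg j x := by unfold sg; rw [h3]
      rw [this, sg_sq]
    rw [e1]
    linear_combination (-(1 / 2) * f (ovw R y x) + (1 / 2) * f (flip j (ovw R y x))) * e2
  · have e1 : Function.update (ovw R y x) j (y j) = flip j (ovw R y x) := by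
      unfold flip
      congr 1
      rw [hxj]
      cases h4 : x j <;> cases h5 : y j <;> simp_all
    have e2 : sg j y * sg j x = -1 := by
      unfold sg
      cases h4 : x j <;> cases h5 : y j <;> simp_all
    rw [e1]
    linear_combination (-(1 / 2) * f (ovw R y x) + (1 / 2) * f (flip j (ovw R y x))) * e2

lemma ovw_flip_left {R : Finset (Fin N)} {j : Fin N} (hj : j ∉ R) (y x : Fin N → Bool) :
    ovw R (flip j y) x = ovw R y x := by
  funext i
  unfold ovw flip
  by_cases hi : i ∈ R
  · have : i ≠ j := fun h => hj (h ▸ hi)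
    simp [hi, this]
  · simp [hi]

theorem sF_insert (f : (Fin N → Bool) → ℝ) {R : Finset (Fin N)} {j : Fin N} (hj : j ∉ R) :
    sF f (insert j R) - sF f R =
      avg (fun y => (avg (fun x => sg j x * f (ovw R y x))) ^ 2) := by
  unfold sF
  simp only [avgR_insert_sg f hj]
  set d : (Fin N → Bool) → ℝ := fun y => avg (fun x => sg j x * f (ovw R y x)) with hd
  set c : (Fin N → Bool) → ℝ := fun y => avgR R y f with hc
  have hdf : ∀ y, d (flip j y) = d y := by
    intro y; simp only [hd, ovw_flip_left hj]
  have hcf : ∀ y, c (flip j y) = c y := by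
    intro y; simp only [hc, avgR, ovw_flip_left hj]
  have h0 : avg (fun y => sg j y * (c y * d y)) = 0 := by
    have h1 : avg (fun y => sg j y * (c y * d y)) = - avg (fun y => sg j y * (c y * d y)) := by
      conv_lhs => rw [← avg_flip j]
      simp only [hdf, hcf, sg_flip]
      rw [← neg_one_mul, ← avg_const_mul]
      congr 1
      funext y
      ring
    linarith
  have h2 : ∀ y, (c y + sg j y * d y) ^ 2 = c y ^ 2 + (2 * (sg j y * (c y * d y)) + d y ^ 2) := by
    intro y
    have := sg_sq j y
    linear_combination (d y) ^ 2 * this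
  have h3 : avg (fun y => (c y + sg j y * d y) ^ 2) = avg (fun y => c y ^ 2) + avg (fun y => d y ^ 2) := by
    simp only [h2]
    rw [avg_add, avg_add, avg_const_mul, h0]
    ring
  rw [h3]
  ring

lemma sF_mono (f : (Fin N → Bool) → ℝ) {R : Finset (Fin N)} {j : Fin N} (hj : j ∉ R) :
    sF f R ≤ sF f (insert j R) := by
  have h1 := sF_insert f hj
  have h2 : 0 ≤ avg (fun y => (avg (fun x => sg j x * f (ovw R y x))) ^ 2) :=
    avg_nonneg fun y => sq_nonneg _
  linarith

lemma sF_nonneg (f : (Fin N → Bool) → ℝ) (R : Finset (Fin N)) : 0 ≤ sF f R :=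
  avg_nonneg fun _ => sq_nonneg _

lemma sF_empty (f : (Fin N → Bool) → ℝ) : sF f ∅ = (avg f) ^ 2 := by
  unfold sF
  simp only [avgR_empty, avg_const]

lemma sF_univ (f : (Fin N → Bool) → ℝ) : sF f univ = avg (fun x => f x ^ 2) := by
  unfold sF
  congr 1
  funext y
  have : ∀ x, ovw univ y x = y := fun x => by funext i; simp [ovw]
  simp only [avgR, this, avg_const]

/-- a coordinate on which `f` does not depend -/
lemma avg_sg_zero (f : (Fin N → Bool) → ℝ) (R : Finset (Fin N)) {j : Fin N} (hj : j ∉ R)
    (hf : ∀ x, f (flip j x) = f x) (y : Fin N → Bool) :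
    avg (fun x => sg j x * f (ovw R y x)) = 0 := by
  have h1 : avg (fun x => sg j x * f (ovw R y x)) = - avg (fun x => sg j x * f (ovw R y x)) := by
    conv_lhs => rw [← avg_flip j]
    simp only [ovw_flip hj, hf, sg_flip]
    rw [← neg_one_mul, ← avg_const_mul]
    congr 1
    funext x
    ring
  linarith

end

end Pool.Agent.H.MP_58d537_lc.SubE
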