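import Pool.Agent.H.MP_58d537_lc.Fixing
import Pool.Agent.H.MP_58d537_lc.A20S.Key
import Pool.Agent.H.MP_58d537_lc.A20S.Bern
import Pool.Agent.H.MP_58d537_lc.A20S.VarInc

/-!
# One step of the revealing process
-/

set_option autoImplicit false

open Finset
open scoped InnerProductSpace

namespace Pool.Agent.H.MP_58d537_lc.SubE

noncomputable section

variable {N : ℕ}
variable {H : Type*} [NormedAddCommGroup H] [InnerProductSpace ℂ H]

/-- the increments for a fixed revealed set -/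
theorem MSys.step_fixed (A : MSys N H) (S₀ : Finset (Fin N)) (a₀ : Fin N → Bool)
    {ι : Type*} (I : Finset ι) (Q : ι → H →ₗ[ℂ] H)
    (hQs : ∀ i u v, ⟪Q i u, v⟫_ℂ = ⟪u, Q i v⟫_ℂ) (hQi : ∀ i v, Q i (Q i v) = Q i v)
    (hQo : ∀ i ∈ I, ∀ i' ∈ I, i ≠ i' → ∀ v, Q i (Q i' v) = 0)
    (s : ℕ) (β θ : ℕ → ℝ) (hβ : ∀ q, 0 < β q) (hθ : ∀ q, 0 < θ q) (R : Finset (Fin N)) :
    ∑ j ∈ univ \ R,
        (∑ i ∈ I, sF (fun x => ‖Q i (A.st s (ovw S₀ a₀ x))‖ ^ 2) (insert j R) -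
          ∑ i ∈ I, sF (fun x => ‖Q i (A.st s (ovw S₀ a₀ x))‖ ^ 2) R) ≤
      2 * (∑ q ∈ range s, β q) * ∑ q ∈ range s, (β q)⁻¹ *
        (θ q * ∑ i ∈ I, sF (fun x => ‖Q i (A.st s (ovw S₀ a₀ x))‖ ^ 2) R +
         (θ q)⁻¹ * ∑ j ∈ univ \ S₀, (if j ∈ R then 0 else
            sF (fun x => ‖A.P q j (A.st q (ovw S₀ a₀ x))‖ ^ 2) R)) := by
  classical
  set F : ι → (Fin N → Bool) → ℝ := fun i x => ‖Q i (A.st s (ovw S₀ a₀ x))‖ ^ 2 with hF
  set G : ℕ → Fin N → (Fin N → Bool) → ℝ :=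
    fun q j x => ‖A.P q j (A.st q (ovw S₀ a₀ x))‖ ^ 2 with hG
  set J : Finset (Fin N) := univ \ (S₀ ∪ R) with hJ
  have hJS : ∀ j ∈ J, j ∉ S₀ := fun j hj => by
    rw [hJ, Finset.mem_sdiff, Finset.mem_union, not_or] at hj
    exact hj.2.1
  have hJR : ∀ j ∈ J, j ∉ R := fun j hj => by
    rw [hJ, Finset.mem_sdiff, Finset.mem_union, not_or] at hj
    exact hj.2.2
  -- rewrite the increments
  have h1 : ∑ j ∈ univ \ R, (∑ i ∈ I, sF (F i) (insert j R) - ∑ i ∈ I, sF (F i) R) =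
      ∑ j ∈ J, ∑ i ∈ I, avg (fun y => (avg (fun x => sg j x * F i (ovw R y x))) ^ 2) := by
    have h2 : ∀ j ∈ univ \ R, ∑ i ∈ I, sF (F i) (insert j R) - ∑ i ∈ I, sF (F i) R =
        ∑ i ∈ I, avg (fun y => (avg (fun x => sg j x * F i (ovw R y x))) ^ 2) := by
      intro j hj
      rw [← Finset.sum_sub_distrib]
      apply Finset.sum_congr rfl
      intro i _
      exact sF_insert (F i) (Finset.mem_sdiff.mp hj).2
    rw [Finset.sum_congr rfl h2]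
    symm
    apply Finset.sum_subset
    · intro j hj
      exact Finset.mem_sdiff.mpr ⟨Finset.mem_univ _, hJR j hj⟩
    · intro j hj hj'
      have hjR := (Finset.mem_sdiff.mp hj).2
      have hjS : j ∈ S₀ := by
        by_contra hc
        exact hj' (Finset.mem_sdiff.mpr ⟨Finset.mem_univ _, by
          rw [Finset.mem_union, not_or]; exact ⟨hc, hjR⟩⟩)
      apply Finset.sum_eq_zero
      intro i _
      have h3 : ∀ y, avg (fun x => sg j x * F i (ovw R y x)) = 0 := fun y =>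
        avg_sg_zero (F i) R hjR (fun x => by
          simp only [hF, ovw_flip_mem hjS]) y
      simp only [h3]
      rw [show (fun _ : Fin N → Bool => (0 : ℝ) ^ 2) = fun _ => (0 : ℝ) by funext _; norm_num]
      exact avg_const 0
  rw [h1]
  have h4 : ∑ j ∈ J, ∑ i ∈ I, avg (fun y => (avg (fun x => sg j x * F i (ovw R y x))) ^ 2) =
      avg (fun y => ∑ i ∈ I, ∑ j ∈ J, (avg (fun x => sg j x * F i (ovw R y x))) ^ 2) := by
    rw [Finset.sum_comm, avg_sum]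
    apply Finset.sum_congr rfl
    intro i _
    rw [avg_sum]
  rw [h4]
  have h5 : ∀ y, ∑ i ∈ I, ∑ j ∈ J, (avg (fun x => sg j x * F i (ovw R y x))) ^ 2 ≤
      2 * (∑ q ∈ range s, β q) * ∑ q ∈ range s, (β q)⁻¹ *
        (θ q * ∑ i ∈ I, (avgR R y (F i)) ^ 2 +
         (θ q)⁻¹ * ∑ j ∈ J, (avgR R y (G q j)) ^ 2) := by
    intro y
    exact A.key (fun x => ovw S₀ a₀ (ovw R y x)) J (fun j hj x => by
      rw [ovw_flip (hJR j hj), ovw_flip (hJS j hj)]) I Q hQs hQi hQo s β θ hβ hθ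
  refine (avg_mono h5).trans (le_of_eq ?_)
  rw [avg_const_mul, avg_sum]
  congr 1
  apply Finset.sum_congr rfl
  intro q _
  rw [avg_const_mul, avg_add, avg_const_mul, avg_const_mul, avg_sum, avg_sum]
  congr 3
  have h6 : ∑ j ∈ univ \ S₀, (if j ∈ R then 0 else sF (G q j) R) =
      ∑ j ∈ J, sF (G q j) R := by
    symm
    have h7 : ∑ j ∈ J, sF (G q j) R = ∑ j ∈ J, (if j ∈ R then 0 else sF (G q j) R) := by
      apply Finset.sum_congr rfl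
      intro j hj
      rw [if_neg (hJR j hj)]
    rw [h7]
    apply Finset.sum_subset
    · intro j hj
      exact Finset.mem_sdiff.mpr ⟨Finset.mem_univ _, hJS j hj⟩
    · intro j hj hj'
      have hjS := (Finset.mem_sdiff.mp hj).2
      have hjR : j ∈ R := by
        by_contra hc
        exact hj' (Finset.mem_sdiff.mpr ⟨Finset.mem_univ _, by
          rw [Finset.mem_union, not_or]; exact ⟨hjS, hc⟩⟩)
      rw [if_pos hjR]
  rw [h6]
  rfl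

theorem MSys.step (A : MSys N H) (S₀ : Finset (Fin N)) (a₀ : Fin N → Bool)
    {ι : Type*} (I : Finset ι) (Q : ι → H →ₗ[ℂ] H)
    (hQs : ∀ i u v, ⟪Q i u, v⟫_ℂ = ⟪u, Q i v⟫_ℂ) (hQi : ∀ i v, Q i (Q i v) = Q i v)
    (hQo : ∀ i ∈ I, ∀ i' ∈ I, i ≠ i' → ∀ v, Q i (Q i' v) = 0)
    (s : ℕ) (t : ℝ) (ht0 : 0 ≤ t) (ht1 : t < 1) (w : ℝ) (hw : 0 < w) (hwt : w ^ 2 = 1 - t)
    (β κ : ℕ → ℝ) (hβ : ∀ q, 0 < β q) (hκ : ∀ q, 0 < κ q) :
    EB t (fun R => ∑ j ∈ univ \ R,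
        (∑ i ∈ I, sF (fun x => ‖Q i (A.st s (ovw S₀ a₀ x))‖ ^ 2) (insert j R) -
          ∑ i ∈ I, sF (fun x => ‖Q i (A.st s (ovw S₀ a₀ x))‖ ^ 2) R)) ≤
      2 * w * (∑ q ∈ range s, β q) * ∑ q ∈ range s, (β q)⁻¹ *
        (κ q * EB t (fun R => ∑ i ∈ I, sF (fun x => ‖Q i (A.st s (ovw S₀ a₀ x))‖ ^ 2) R) +
         (κ q)⁻¹ * EB t (fun R => ∑ j ∈ univ \ S₀,
            sF (fun x => ‖A.P q j (A.st q (ovw S₀ a₀ x))‖ ^ 2) R)) := by
  classical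
  have hβs : 0 ≤ ∑ q ∈ range s, β q := Finset.sum_nonneg fun q _ => (hβ q).le
  refine (EB_mono ht0 ht1.le fun R => A.step_fixed S₀ a₀ I Q hQs hQi hQo s β
    (fun q => w * κ q) hβ (fun q => mul_pos hw (hκ q)) R).trans ?_
  rw [EB_mul, EB_sum]
  rw [show 2 * w * (∑ q ∈ range s, β q) * ∑ q ∈ range s, (β q)⁻¹ *
        (κ q * EB t (fun R => ∑ i ∈ I, sF (fun x => ‖Q i (A.st s (ovw S₀ a₀ x))‖ ^ 2) R) +
         (κ q)⁻¹ * EB t (fun R => ∑ j ∈ univ \ S₀,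
            sF (fun x => ‖A.P q j (A.st q (ovw S₀ a₀ x))‖ ^ 2) R)) =
      2 * (∑ q ∈ range s, β q) * (w * ∑ q ∈ range s, (β q)⁻¹ *
        (κ q * EB t (fun R => ∑ i ∈ I, sF (fun x => ‖Q i (A.st s (ovw S₀ a₀ x))‖ ^ 2) R) +
         (κ q)⁻¹ * EB t (fun R => ∑ j ∈ univ \ S₀,
            sF (fun x => ‖A.P q j (A.st q (ovw S₀ a₀ x))‖ ^ 2) R))) by ring]
  apply mul_le_mul_of_nonneg_left _ (mul_nonneg (by norm_num) hβs)
  rw [Finset.mul_sum]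
  apply Finset.sum_le_sum
  intro q _
  rw [EB_mul, EB_add, EB_mul, EB_mul]
  simp only [EB_sum]
  have hfree : ∑ j ∈ univ \ S₀, EB t (fun R => if j ∈ R then 0 else
      sF (fun x => ‖A.P q j (A.st q (ovw S₀ a₀ x))‖ ^ 2) R) ≤
      (1 - t) * ∑ j ∈ univ \ S₀, EB t (sF (fun x => ‖A.P q j (A.st q (ovw S₀ a₀ x))‖ ^ 2)) := by
    rw [Finset.mul_sum]
    apply Finset.sum_le_sum
    intro j _
    exact EB_free ht0 ht1.le _ j (fun R hR => sF_mono _ hR)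
  have hβq : 0 ≤ (β q)⁻¹ := (inv_pos.mpr (hβ q)).le
  have hκq := hκ q
  set X := ∑ i ∈ I, EB t (sF (fun x => ‖Q i (A.st s (ovw S₀ a₀ x))‖ ^ 2)) with hX
  set Y := ∑ j ∈ univ \ S₀, EB t (sF (fun x => ‖A.P q j (A.st q (ovw S₀ a₀ x))‖ ^ 2)) with hY
  set Y' := ∑ j ∈ univ \ S₀, EB t (fun R => if j ∈ R then 0 else
      sF (fun x => ‖A.P q j (A.st q (ovw S₀ a₀ x))‖ ^ 2) R) with hY'
  calc (β q)⁻¹ * (w * κ q * X + (w * κ q)⁻¹ * Y')
      ≤ (β q)⁻¹ * (w * κ q * X + (w * κ q)⁻¹ * ((1 - t) * Y)) := by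
        gcongr
    _ = _ := by
        rw [← hwt]
        field_simp

end

end Pool.Agent.H.MP_58d537_lc.SubE
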